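import Pool.Agent.TH46.IA.Defs

/-!
# A criterion for the failure of quadratic presentability
-/

set_option autoImplicit false
set_option linter.unusedSectionVars false
set_option linter.unusedSimpArgs false

namespace Pool.Agent.TH46.IA

open BurnLie
open scoped commutatorElement

attribute [local instance 100] LieRing.ofAssociativeRing

universe u v

section Lift

variable {G : Type u} [Group G] {B : Type v} [AddCommGroup B]

/-- Additive maps on the homogeneous components. -/
noncomputable def grdLift (n : ℕ) (θ : lcs G n → B) (hmul : ∀ g h, θ (g * h) = θ g + θ h)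
    (hker : ∀ g : lcs G n, (g : G) ∈ lcs G (n + 1) → θ g = 0) : Grd G n →+ B where
  toFun x := Quotient.liftOn (Additive.toMul x) θ (by
    intro a b hab
    have h1 : (a⁻¹ * b : lcs G n) ∈ (lcs G (n + 1)).subgroupOf (lcs G n) := by
      rw [← QuotientGroup.eq]
      exact Quotient.sound hab
    have h2 := hker (a⁻¹ * b) (Subgroup.mem_subgroupOf.mp h1)
    have h3 := hmul a (a⁻¹ * b)
    rw [mul_inv_cancel_left, h2, add_zero] at h3
    exact h3.symm)
  map_zero' := by
    have h := hmul 1 1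
    rw [mul_one] at h
    have h2 : θ 1 = 0 := by simpa using h
    exact h2
  map_add' := by
    intro x y
    obtain ⟨x, rfl⟩ := grMk_surj n x
    obtain ⟨y, rfl⟩ := grMk_surj n y
    exact hmul x y

theorem grdLift_mk (n : ℕ) (θ : lcs G n → B) (hmul : ∀ g h, θ (g * h) = θ g + θ h)
    (hker : ∀ g : lcs G n, (g : G) ∈ lcs G (n + 1) → θ g = 0) (g : lcs G n) :
    grdLift n θ hmul hker (grMk n g) = θ g := rfl

end Lift

section Hom

variable {G : Type u} [Group G]

theorem add_one_of {A : G → ℤ} (hA : ∀ g h, A (g * h) = A g + A h) : A 1 = 0 := by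
  have h := hA 1 1
  rw [mul_one] at h
  omega

theorem add_inv_of {A : G → ℤ} (hA : ∀ g h, A (g * h) = A g + A h) (g : G) : A g⁻¹ = - A g := by
  have h := hA g g⁻¹
  rw [mul_inv_cancel, add_one_of hA] at h
  omega

theorem add_comm_of {A : G → ℤ} (hA : ∀ g h, A (g * h) = A g + A h) (g h : G) :
    A ⁅g, h⁆ = 0 := by
  rw [commutatorElement_def, hA, hA, hA, add_inv_of hA, add_inv_of hA]
  ring

theorem add_lcs_one {A : G → ℤ} (hA : ∀ g h, A (g * h) = A g + A h) (g : G)
    (hg : g ∈ lcs G 1) : A g = 0 := by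
  rw [lcs, Subgroup.mem_lowerCentralSeries_succ_iff] at hg
  induction hg using Subgroup.closure_induction with
  | mem w hw =>
    obtain ⟨x, -, y, -, rfl⟩ := hw
    exact add_comm_of hA x y
  | one => exact add_one_of hA
  | mul x y _ _ hx hy => rw [hA, hx, hy]; rfl
  | inv x _ hx => rw [add_inv_of hA, hx]; rfl

variable {A P m : G → ℤ} (hA : ∀ g h, A (g * h) = A g + A h)
  (hP : ∀ g h, P (g * h) = P g + P h) (hm : ∀ g h, m (g * h) = m g + m h + A g * P h)

include hA hP hm

theorem quad_one : m 1 = 0 := by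
  have h := hm 1 1
  rw [mul_one, add_one_of hA] at h
  omega

theorem quad_inv (g : G) : m g⁻¹ = - m g + A g * P g := by
  have h := hm g g⁻¹
  rw [mul_inv_cancel, quad_one hA hP hm, add_inv_of hP] at h
  linarith

theorem quad_comm (g h : G) : m ⁅g, h⁆ = A g * P h - A h * P g := by
  simp only [commutatorElement_def, hm, hA, quad_inv hA hP hm, add_inv_of hA, add_inv_of hP]
  ring

theorem quad_lcs_two (g : G) (hg : g ∈ lcs G 2) : m g = 0 := by
  have key : m g = 0 ∧ A g = 0 := by
    rw [lcs, Subgroup.mem_lowerCentralSeries_succ_iff] at hg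
    induction hg using Subgroup.closure_induction with
    | mem w hw =>
      obtain ⟨x, hx, y, -, rfl⟩ := hw
      refine ⟨?_, add_comm_of hA x y⟩
      rw [quad_comm hA hP hm, add_lcs_one hA x hx, add_lcs_one hP x hx]
      ring
    | one => exact ⟨quad_one hA hP hm, add_one_of hA⟩
    | mul x y _ _ hx hy => rw [hm, hA, hx.1, hx.2, hy.1, hy.2]; simp
    | inv x _ hx => rw [quad_inv hA hP hm, add_inv_of hA, hx.1, hx.2]; simp
  exact key.1

end Hom

/-- matrix units of size four -/
abbrev mu (i j : Fin 4) : Matrix (Fin 4) (Fin 4) ℤ := Matrix.single i j 1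

/-- The criterion: `A`, `P`, `R` are homomorphisms to `ℤ` whose consecutive cup products vanish,
but the Massey triple product does not vanish on the relation `[a, [p, r]] = 1`. -/
theorem not_freeModQuadratic {G : Type u} [Group G] (A P R m n : G → ℤ)
    (hA : ∀ g h, A (g * h) = A g + A h) (hP : ∀ g h, P (g * h) = P g + P h)
    (hR : ∀ g h, R (g * h) = R g + R h) (hm : ∀ g h, m (g * h) = m g + m h + A g * P h)
    (hn : ∀ g h, n (g * h) = n g + n h + P g * R h) (a p r : G)
    (ha : A a = 1 ∧ P a = 0 ∧ R a = 0) (hp : A p = 0 ∧ P p = -1 ∧ R p = 0)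
    (hr : A r = 0 ∧ P r = 0 ∧ R r = -1) (hrel : ⁅a, ⁅p, r⁆⁆ = 1) : ¬ FreeModQuadratic G := by
  rintro ⟨S, hS, hker⟩
  -- the additive map in degree one
  let θ1 : lcs G 0 → Matrix (Fin 4) (Fin 4) ℤ := fun g =>
    A (g : G) • mu 0 1 + P (g : G) • mu 1 2 + R (g : G) • mu 2 3
  have hθ1 : ∀ g h, θ1 (g * h) = θ1 g + θ1 h := by
    intro g h
    simp only [θ1, Subgroup.coe_mul, hA, hP, hR]
    module
  have hθ1k : ∀ g : lcs G 0, (g : G) ∈ lcs G (0 + 1) → θ1 g = 0 := by
    intro g hg
    simp only [θ1, add_lcs_one hA _ hg, add_lcs_one hP _ hg, add_lcs_one hR _ hg, zero_smul,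
      add_zero]
  let f1 : Grd G 0 →+ Matrix (Fin 4) (Fin 4) ℤ := grdLift 0 θ1 hθ1 hθ1k
  -- the additive map in degree two
  let θ2 : lcs G 1 → Matrix (Fin 4) (Fin 4) ℤ := fun g => m (g : G) • mu 0 2 + n (g : G) • mu 1 3
  have hθ2 : ∀ g h, θ2 (g * h) = θ2 g + θ2 h := by
    intro g h
    simp only [θ2, Subgroup.coe_mul, hm, hn, add_lcs_one hA _ g.2, add_lcs_one hP _ g.2]
    module
  have hθ2k : ∀ g : lcs G 1, (g : G) ∈ lcs G (1 + 1) → θ2 g = 0 := by
    intro g hg
    simp only [θ2, quad_lcs_two hA hP hm _ hg, quad_lcs_two hP hR hn _ hg, zero_smul, add_zero]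
  let f2 : Grd G 1 →+ Matrix (Fin 4) (Fin 4) ℤ := grdLift 1 θ2 hθ2 hθ2k
  -- compatibility with brackets
  have hbr : ∀ x y : Grd G 0, ⁅f1 x, f1 y⁆ = f2 (grBr 0 0 x y) := by
    intro x y
    obtain ⟨x, rfl⟩ := grMk_surj 0 x
    obtain ⟨y, rfl⟩ := grMk_surj 0 y
    have e1 : f1 (grMk 0 x) = θ1 x := rfl
    have e2 : f1 (grMk 0 y) = θ1 y := rfl
    have e3 : f2 (grBr 0 0 (grMk 0 x) (grMk 0 y)) = θ2 ⟨⁅(x : G), (y : G)⁆, (brElt 0 0 x y).2⟩ :=
      rfl
    rw [e1, e2, e3]
    simp only [θ1, θ2, quad_comm hA hP hm, quad_comm hP hR hn, Ring.lie_def]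
    generalize A (x : G) = a1
    generalize P (x : G) = a2
    generalize R (x : G) = a3
    generalize A (y : G) = b1
    generalize P (y : G) = b2
    generalize R (y : G) = b3
    ext i j
    fin_cases i <;> fin_cases j <;>
      simp [Matrix.mul_apply, Matrix.single_apply] <;> ring
  -- the test homomorphism
  let Ψ : FreeLieRing (Grd G 0) →ₗ⁅ℤ⁆ Matrix (Fin 4) (Fin 4) ℤ := liftLie f1
  have hΨ : ∀ x, Ψ (incl (Grd G 0) x) = f1 x := fun x => liftLie_incl f1 x
  have hπ : ∀ x, natHom G (incl (Grd G 0) x) = ofL 0 x := fun x => liftLie_incl (ofL 0) x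
  -- the homogeneous component of index one
  let c1 : AssocLie G →+ Grd G 1 := DirectSum.toAddMonoid fun k =>
    if h : k = 1 then (by subst h; exact AddMonoidHom.id _) else 0
  have hc1 : ∀ x : Grd G 1, c1 (ofL 1 x) = x := by
    intro x
    have := DirectSum.toAddMonoid_of (β := Grd G) (fun k =>
      if h : k = 1 then (by subst h; exact AddMonoidHom.id _ : Grd G k →+ Grd G 1) else 0) 1 x
    exact this
  have hdeg : ∀ s ∈ degTwo (Grd G 0), Ψ s = f2 (c1 (natHom G s)) := by
    intro s hs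
    unfold degTwo at hs
    induction hs using AddSubgroup.closure_induction with
    | mem s hs =>
      obtain ⟨x, y, rfl⟩ := hs
      have h1 : natHom G ⁅incl (Grd G 0) x, incl (Grd G 0) y⁆ = ofL 1 (grBr 0 0 x y) := by
        rw [LieHom.map_lie, hπ, hπ]
        exact lieHom_of 0 0 x y
      rw [h1, hc1, LieHom.map_lie, hΨ, hΨ, hbr]
    | zero => simp only [map_zero]
    | add x y _ _ hx hy => rw [map_add, map_add, map_add, map_add, hx, hy]
    | neg x _ hx => rw [map_neg, map_neg, map_neg, map_neg, hx]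
  -- the kernel of the natural map is in the kernel of the test homomorphism
  have hle : (natHom G).ker ≤ Ψ.ker := by
    rw [hker, LieSubmodule.lieSpan_le]
    intro s hs
    have h1 : s ∈ (natHom G).ker := by
      rw [hker]
      exact LieSubmodule.subset_lieSpan hs
    rw [LieHom.mem_ker] at h1
    change s ∈ Ψ.ker
    rw [LieHom.mem_ker, hdeg s (hS hs), h1, map_zero, map_zero]
  -- the cubic relation
  let a' : lcs G 0 := ⟨a, Subgroup.mem_top a⟩
  let p' : lcs G 0 := ⟨p, Subgroup.mem_top p⟩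
  let r' : lcs G 0 := ⟨r, Subgroup.mem_top r⟩
  have hc : ⁅incl _ (grMk 0 a'), ⁅incl _ (grMk 0 p'), incl _ (grMk 0 r')⁆⁆ ∈ (natHom G).ker := by
    rw [LieHom.mem_ker, LieHom.map_lie, LieHom.map_lie, hπ, hπ, hπ]
    change lieHom (mkL 0 a') (lieHom (mkL 0 p') (mkL 0 r')) = 0
    rw [lieHom_mkL, lieHom_mkL, ← mkL_one]
    exact mkL_congr rfl hrel
  have h2 := LieHom.mem_ker.mp (hle hc)
  rw [LieHom.map_lie, LieHom.map_lie, hΨ, hΨ, hΨ] at h2
  have e1 : f1 (grMk 0 a') = mu 0 1 := by
    change θ1 a' = _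
    simp [θ1, a', ha.1, ha.2.1, ha.2.2]
  have e2 : f1 (grMk 0 p') = - mu 1 2 := by
    change A p • mu 0 1 + P p • mu 1 2 + R p • mu 2 3 = _
    rw [hp.1, hp.2.1, hp.2.2]
    module
  have e3 : f1 (grMk 0 r') = - mu 2 3 := by
    change A r • mu 0 1 + P r • mu 1 2 + R r • mu 2 3 = _
    rw [hr.1, hr.2.1, hr.2.2]
    module
  rw [e1, e2, e3] at h2
  have h3 := congrFun (congrFun h2 0) 3
  simp [Ring.lie_def, Matrix.mul_apply, Fin.sum_univ_four, Matrix.single_apply] at h3

end Pool.Agent.TH46.IA
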