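import Mathlib
import Pool.Agent.H77R2.AssocLie

/-!
# Groups whose graded Lie ring is free modulo quadratic relations; the groups `IA n`

`BurnLie.AssocLie G` is the direct sum of the quotients of consecutive terms of the lower central
series of `G`, with the bracket induced by the group commutator, and `BurnLie.Grd G 0` is its
component of degree one, that is `G` modulo its commutator subgroup.
-/

set_option autoImplicit false

namespace Pool.Agent.TH46.IA

open BurnLie

universe u v

/-- The homomorphism induced on the quotient by a Lie ideal in the kernel. -/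
noncomputable def quotLift {L : Type u} {L' : Type v} [LieRing L] [LieRing L'] (I : LieIdeal ℤ L)
    (f : L →ₗ⁅ℤ⁆ L') (h : ∀ x ∈ I, f x = 0) : L ⧸ I →ₗ⁅ℤ⁆ L' where
  toLinearMap := I.toSubmodule.liftQ (f : L →ₗ[ℤ] L') h
  map_lie' := by
    intro x y
    obtain ⟨x, rfl⟩ := LieSubmodule.Quotient.surjective_mk' I x
    obtain ⟨y, rfl⟩ := LieSubmodule.Quotient.surjective_mk' I y
    exact f.map_lie x y

theorem quotLift_mk {L : Type u} {L' : Type v} [LieRing L] [LieRing L'] (I : LieIdeal ℤ L)
    (f : L →ₗ⁅ℤ⁆ L') (h : ∀ x ∈ I, f x = 0) (x : L) :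
    quotLift I f h (LieSubmodule.Quotient.mk x) = f x := rfl

/-- The free Lie ring on the set `X`. -/
def FreeLieOn (X : Type u) : Type u := FreeLieAlgebra ℤ X

noncomputable instance (X : Type u) : LieRing (FreeLieOn X) :=
  inferInstanceAs (LieRing (FreeLieAlgebra ℤ X))

/-- The free generators. -/
noncomputable def gen {X : Type u} (x : X) : FreeLieOn X := FreeLieAlgebra.of ℤ x

/-- The universal property of the free Lie ring on a set. -/
noncomputable def liftOn {X : Type u} {L : Type v} [LieRing L] (f : X → L) :
    FreeLieOn X →ₗ⁅ℤ⁆ L where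
  toLinearMap := AddMonoidHom.toIntLinearMap
    { toFun := fun x => FreeLieAlgebra.lift ℤ f x
      map_zero' := map_zero _
      map_add' := fun x y => map_add (FreeLieAlgebra.lift ℤ f) x y }
  map_lie' := by
    intro x y
    exact LieHom.map_lie (FreeLieAlgebra.lift ℤ f) x y

theorem liftOn_gen {X : Type u} {L : Type v} [LieRing L] (f : X → L) (x : X) :
    liftOn f (gen x) = f x := FreeLieAlgebra.lift_of_apply (R := ℤ) f x

/-- The relations which say that the inclusion of the generators is additive. -/
noncomputable def linRel (V : Type u) [AddCommGroup V] : LieIdeal ℤ (FreeLieOn V) :=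
  LieSubmodule.lieSpan ℤ (FreeLieOn V) {x | ∃ u v : V, x = gen (u + v) - gen u - gen v}

/-- The free Lie ring on the abelian group `V`. -/
abbrev FreeLieRing (V : Type u) [AddCommGroup V] : Type u := FreeLieOn V ⧸ linRel V

/-- The inclusion of `V` in the free Lie ring on `V`. -/
noncomputable def incl (V : Type u) [AddCommGroup V] (v : V) : FreeLieRing V :=
  LieSubmodule.Quotient.mk (gen v)

theorem lift_linRel {V : Type u} [AddCommGroup V] {L : Type v} [LieRing L] (f : V →+ L)
    (x : FreeLieOn V) (hx : x ∈ linRel V) : liftOn (f : V → L) x = 0 := by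
  have h : linRel V ≤ (liftOn (f : V → L)).ker := by
    unfold linRel
    rw [LieSubmodule.lieSpan_le]
    rintro x ⟨u, v, rfl⟩
    change _ ∈ (liftOn (f : V → L)).ker
    rw [LieHom.mem_ker, map_sub, map_sub, liftOn_gen, liftOn_gen, liftOn_gen, map_add]
    abel
  exact LieHom.mem_ker.mp (h hx)

/-- The homomorphism from the free Lie ring on `V` which extends an additive map on `V`. -/
noncomputable def liftLie {V : Type u} [AddCommGroup V] {L : Type v} [LieRing L] (f : V →+ L) :
    FreeLieRing V →ₗ⁅ℤ⁆ L :=
  quotLift (linRel V) (liftOn (f : V → L)) (lift_linRel f)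

theorem liftLie_incl {V : Type u} [AddCommGroup V] {L : Type v} [LieRing L] (f : V →+ L) (v : V) :
    liftLie f (incl V v) = f v :=
  liftOn_gen (f : V → L) v

/-- The part of degree two of the free Lie ring on `V`: sums of brackets of elements of `V`. -/
noncomputable def degTwo (V : Type u) [AddCommGroup V] : AddSubgroup (FreeLieRing V) :=
  AddSubgroup.closure {x | ∃ u v : V, x = ⁅incl V u, incl V v⁆}

/-- The natural homomorphism from the free Lie ring on the abelianization `V = Grd G 0` of `G` to
the graded Lie ring of the lower central series of `G`, which is the identity on `V`. -/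
noncomputable def natHom (G : Type u) [Group G] : FreeLieRing (Grd G 0) →ₗ⁅ℤ⁆ AssocLie G :=
  liftLie (ofL 0)

/-- The graded Lie ring of the lower central series of `G` is free modulo quadratic relations: the
kernel of the natural homomorphism from the free Lie ring on the abelianization of `G` is
generated, as a Lie ideal, by elements of degree two. -/
def FreeModQuadratic (G : Type u) [Group G] : Prop :=
  ∃ S : Set (FreeLieRing (Grd G 0)), S ⊆ degTwo (Grd G 0) ∧
    (natHom G).ker = LieSubmodule.lieSpan ℤ (FreeLieRing (Grd G 0)) S

/-- The group `IA n` of automorphisms of the free group of rank `n` which induce the identity on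
the abelianization. -/
def IAGroup (n : ℕ) : Subgroup (MulAut (FreeGroup (Fin n))) where
  carrier := {φ | ∀ w, Abelianization.of (φ w) = Abelianization.of w}
  one_mem' := fun w => rfl
  mul_mem' := by
    intro φ ψ hφ hψ w
    rw [MulAut.mul_apply, hφ, hψ]
  inv_mem' := by
    intro φ hφ w
    have h := hφ (φ⁻¹ w)
    rw [← h, MulAut.apply_inv_self]

end Pool.Agent.TH46.IA
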