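import Pool.Agent.TH46.IA.Defs

/-!
# Magnus coefficients up to degree three, and automorphisms which are trivial on the abelianization
-/

set_option autoImplicit false
set_option linter.unusedSimpArgs false

namespace Pool.Agent.TH46.IA

/-- Truncated power series with constant term one in three noncommuting variables, up to degree
three. -/
@[ext] structure Mag where
  /-- coefficients of degree one -/
  c1 : Fin 3 → ℤ
  /-- coefficients of degree two -/
  c2 : Fin 3 → Fin 3 → ℤ
  /-- coefficients of degree three -/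
  c3 : Fin 3 → Fin 3 → Fin 3 → ℤ

namespace Mag

instance : Mul Mag := ⟨fun a b => ⟨fun i => a.c1 i + b.c1 i,
  fun i j => a.c2 i j + a.c1 i * b.c1 j + b.c2 i j,
  fun i j k => a.c3 i j k + a.c2 i j * b.c1 k + a.c1 i * b.c2 j k + b.c3 i j k⟩⟩

instance : One Mag := ⟨⟨fun _ => 0, fun _ _ => 0, fun _ _ _ => 0⟩⟩

instance : Inv Mag := ⟨fun a => ⟨fun i => - a.c1 i, fun i j => - a.c2 i j + a.c1 i * a.c1 j,
  fun i j k => - a.c3 i j k + a.c1 i * a.c2 j k + a.c2 i j * a.c1 k -
    a.c1 i * a.c1 j * a.c1 k⟩⟩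

@[simp] theorem mul_c1 (a b : Mag) (i : Fin 3) : (a * b).c1 i = a.c1 i + b.c1 i := rfl
@[simp] theorem mul_c2 (a b : Mag) (i j : Fin 3) :
    (a * b).c2 i j = a.c2 i j + a.c1 i * b.c1 j + b.c2 i j := rfl
@[simp] theorem mul_c3 (a b : Mag) (i j k : Fin 3) : (a * b).c3 i j k =
    a.c3 i j k + a.c2 i j * b.c1 k + a.c1 i * b.c2 j k + b.c3 i j k := rfl
@[simp] theorem one_c1 (i : Fin 3) : (1 : Mag).c1 i = 0 := rfl
@[simp] theorem one_c2 (i j : Fin 3) : (1 : Mag).c2 i j = 0 := rfl
@[simp] theorem one_c3 (i j k : Fin 3) : (1 : Mag).c3 i j k = 0 := rfl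
@[simp] theorem inv_c1 (a : Mag) (i : Fin 3) : (a⁻¹).c1 i = - a.c1 i := rfl
@[simp] theorem inv_c2 (a : Mag) (i j : Fin 3) :
    (a⁻¹).c2 i j = - a.c2 i j + a.c1 i * a.c1 j := rfl
@[simp] theorem inv_c3 (a : Mag) (i j k : Fin 3) : (a⁻¹).c3 i j k =
    - a.c3 i j k + a.c1 i * a.c2 j k + a.c2 i j * a.c1 k - a.c1 i * a.c1 j * a.c1 k := rfl

theorem ext' {a b : Mag} (h1 : ∀ i, a.c1 i = b.c1 i) (h2 : ∀ i j, a.c2 i j = b.c2 i j)
    (h3 : ∀ i j k, a.c3 i j k = b.c3 i j k) : a = b :=
  Mag.ext (funext h1) (funext fun i => funext (h2 i))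
    (funext fun i => funext fun j => funext (h3 i j))

instance : Group Mag where
  mul_assoc a b c := by
    apply ext'
    · intro i; simp only [mul_c1]; ring
    · intro i j; simp only [mul_c1, mul_c2]; ring
    · intro i j k; simp only [mul_c1, mul_c2, mul_c3]; ring
  one_mul a := by
    apply ext'
    · intro i; simp only [mul_c1, one_c1]; ring
    · intro i j; simp only [mul_c1, mul_c2, one_c1, one_c2]; ring
    · intro i j k; simp only [mul_c1, mul_c2, mul_c3, one_c1, one_c2, one_c3]; ring
  mul_one a := by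
    apply ext'
    · intro i; simp only [mul_c1, one_c1]; ring
    · intro i j; simp only [mul_c1, mul_c2, one_c1, one_c2]; ring
    · intro i j k; simp only [mul_c1, mul_c2, mul_c3, one_c1, one_c2, one_c3]; ring
  inv_mul_cancel a := by
    apply ext'
    · intro i; simp only [mul_c1, one_c1, inv_c1]; ring
    · intro i j; simp only [mul_c1, mul_c2, one_c1, one_c2, inv_c1, inv_c2]; ring
    · intro i j k
      simp only [mul_c1, mul_c2, mul_c3, one_c1, one_c2, one_c3, inv_c1, inv_c2, inv_c3]; ring

end Mag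

/-- The Magnus expansion, up to degree three. -/
def mag : FreeGroup (Fin 3) →* Mag :=
  FreeGroup.lift fun i => ⟨fun j => if j = i then 1 else 0, fun _ _ => 0, fun _ _ _ => 0⟩

theorem mag_of (i : Fin 3) : mag (FreeGroup.of i) =
    ⟨fun j => if j = i then 1 else 0, fun _ _ => 0, fun _ _ _ => 0⟩ := FreeGroup.lift_apply_of

/-- The shuffle relation in degree two. -/
theorem shuffle (w : FreeGroup (Fin 3)) (j k : Fin 3) : (mag w).c1 j * (mag w).c1 k =
    (mag w).c2 j k + (mag w).c2 k j + if j = k then (mag w).c1 j else 0 := by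
  induction w using FreeGroup.induction_on with
  | C1 => simp
  | of i =>
    rw [mag_of]
    by_cases h : j = k
    · subst h; simp
    · simp only [if_neg h]
      by_cases h1 : j = i
      · subst h1; simp [Ne.symm h]
      · simp [h1]
  | inv_of i ih =>
    rw [map_inv]
    simp only [Mag.inv_c1, Mag.inv_c2]
    split_ifs at ih ⊢ with h
    · linarith
    · linarith
  | mul x y hx hy =>
    rw [map_mul]
    simp only [Mag.mul_c1, Mag.mul_c2]
    split_ifs at hx hy ⊢ with h
    · subst h; linarith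
    · linarith

/-- The substitution `X_i ↦ X_i + A_i + B_i`. -/
def subst (A : Fin 3 → Fin 3 → Fin 3 → ℤ) (B : Fin 3 → Fin 3 → Fin 3 → Fin 3 → ℤ) : Mag →* Mag where
  toFun a := ⟨a.c1, fun j k => a.c2 j k + ∑ i, a.c1 i * A i j k,
    fun j k l => a.c3 j k l + ∑ i, a.c1 i * B i j k l +
      ∑ i, (a.c2 j i * A i k l + a.c2 i l * A i j k)⟩
  map_one' := by apply Mag.ext' <;> intros <;> simp
  map_mul' a b := by
    apply Mag.ext'
    · intro i; rfl
    · intro i j
      simp only [Mag.mul_c1, Mag.mul_c2, Fin.sum_univ_three]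
      ring
    · intro i j k
      simp only [Mag.mul_c1, Mag.mul_c2, Mag.mul_c3, Fin.sum_univ_three]
      ring

/-- Degree one coefficients depend only on the class in the abelianization. -/
theorem c1_eq_of_ab (w w' : FreeGroup (Fin 3)) (h : Abelianization.of w = Abelianization.of w') :
    (mag w).c1 = (mag w').c1 := by
  let g : FreeGroup (Fin 3) →* Multiplicative (Fin 3 → ℤ) :=
    { toFun := fun w => Multiplicative.ofAdd (mag w).c1
      map_one' := by rw [map_one]; rfl
      map_mul' := by intro a b; rw [map_mul]; rfl }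
  have h1 : ∀ w, Abelianization.lift g (Abelianization.of w) = g w := fun w => by simp
  have h2 := congrArg (Abelianization.lift g) h
  rw [h1, h1] at h2
  exact h2

/-- The substitution belonging to an automorphism in `IA 3`. -/
theorem mag_apply (φ : MulAut (FreeGroup (Fin 3))) (hφ : φ ∈ IAGroup 3) (w : FreeGroup (Fin 3)) :
    mag (φ w) = subst (fun i => (mag (φ (FreeGroup.of i))).c2)
      (fun i => (mag (φ (FreeGroup.of i))).c3) (mag w) := by
  have key : mag.comp φ.toMonoidHom = (subst (fun i => (mag (φ (FreeGroup.of i))).c2)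
      (fun i => (mag (φ (FreeGroup.of i))).c3)).comp mag := by
    refine FreeGroup.ext_hom _ _ fun i => ?_
    change mag (φ (FreeGroup.of i)) = subst _ _ (mag (FreeGroup.of i))
    have h1 := c1_eq_of_ab _ _ (hφ (FreeGroup.of i))
    rw [mag_of] at h1 ⊢
    apply Mag.ext'
    · intro j
      rw [h1]
      rfl
    · intro j k
      simp [subst]
    · intro j k l
      simp [subst]
  exact DFunLike.congr_fun key w

end Pool.Agent.TH46.IA
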