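import Pool.Agent.TH46.IA.Crit
import Pool.Agent.TH46.IA.Magnus

/-!
# The graded Lie ring of `IA 3` is not free modulo quadratic relations
-/

set_option autoImplicit false

namespace Pool.Agent.TH46.IA

open scoped commutatorElement

/-- the group `IA 3` -/
abbrev G3 : Type := ↥(IAGroup 3)

/-- the Magnus coefficients of degree two of the image of a generator -/
def q2 (φ : G3) (i j k : Fin 3) : ℤ := (mag ((φ : MulAut (FreeGroup (Fin 3))) (FreeGroup.of i))).c2 j k

/-- the Magnus coefficients of degree three of the image of a generator -/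
def q3 (φ : G3) (i j k l : Fin 3) : ℤ :=
  (mag ((φ : MulAut (FreeGroup (Fin 3))) (FreeGroup.of i))).c3 j k l

theorem c1_img (φ : G3) (i j : Fin 3) :
    (mag ((φ : MulAut (FreeGroup (Fin 3))) (FreeGroup.of i))).c1 j = if j = i then 1 else 0 := by
  have h1 := c1_eq_of_ab _ _ (φ.2 (FreeGroup.of i))
  rw [mag_of] at h1
  exact congrFun h1 j

theorem q2_diag (φ : G3) (i j : Fin 3) : q2 φ i j j = 0 := by
  have h := shuffle ((φ : MulAut (FreeGroup (Fin 3))) (FreeGroup.of i)) j j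
  rw [c1_img, if_pos rfl] at h
  change (_ : ℤ) = q2 φ i j j + q2 φ i j j + _ at h
  by_cases hji : j = i
  · rw [if_pos hji] at h
    omega
  · rw [if_neg hji] at h
    omega

theorem q2_anti (φ : G3) (i j k : Fin 3) (hjk : j ≠ k) : q2 φ i j k + q2 φ i k j = 0 := by
  have h := shuffle ((φ : MulAut (FreeGroup (Fin 3))) (FreeGroup.of i)) j k
  rw [c1_img, c1_img, if_neg hjk, add_zero] at h
  unfold q2
  rw [← h]
  split_ifs with h1 h2
  · exact absurd (h1.trans h2.symm) hjk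
  · simp
  · simp
  · simp

theorem mag_mul_img (φ ψ : G3) (i : Fin 3) :
    mag (((φ * ψ : G3) : MulAut (FreeGroup (Fin 3))) (FreeGroup.of i)) =
      subst (fun i => (mag ((φ : MulAut (FreeGroup (Fin 3))) (FreeGroup.of i))).c2)
        (fun i => (mag ((φ : MulAut (FreeGroup (Fin 3))) (FreeGroup.of i))).c3)
        (mag ((ψ : MulAut (FreeGroup (Fin 3))) (FreeGroup.of i))) := by
  rw [← mag_apply _ φ.2]
  rfl

theorem q2_mul (φ ψ : G3) (i j k : Fin 3) : q2 (φ * ψ) i j k = q2 φ i j k + q2 ψ i j k := by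
  unfold q2
  rw [mag_mul_img]
  simp [subst, c1_img, add_comm]

theorem q3_mul (φ ψ : G3) (i j k l : Fin 3) : q3 (φ * ψ) i j k l =
    q3 φ i j k l + q3 ψ i j k l +
      (q2 ψ i j 0 * q2 φ 0 k l + q2 ψ i 0 l * q2 φ 0 j k +
      (q2 ψ i j 1 * q2 φ 1 k l + q2 ψ i 1 l * q2 φ 1 j k) +
      (q2 ψ i j 2 * q2 φ 2 k l + q2 ψ i 2 l * q2 φ 2 j k)) := by
  unfold q3 q2
  rw [mag_mul_img]
  simp only [subst, MonoidHom.coe_mk, OneHom.coe_mk, c1_img, ite_mul, one_mul, zero_mul,
    Finset.sum_ite_eq', Finset.mem_univ, if_true]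
  rw [Fin.sum_univ_three]
  ring

/-- the homomorphism `A` -/
def hA (φ : G3) : ℤ := q2 φ 0 1 2
/-- the homomorphism `P` -/
def hP (φ : G3) : ℤ := q2 φ 0 0 1 - q2 φ 2 2 1
/-- the homomorphism `R` -/
def hR (φ : G3) : ℤ := q2 φ 0 0 2 - q2 φ 1 1 2
/-- a cochain whose coboundary is the cup product of `A` and `P` -/
def hm (φ : G3) : ℤ := - q3 φ 0 1 1 2 - q2 φ 0 1 2 * q2 φ 2 2 1
/-- a cochain whose coboundary is the cup product of `P` and `R` -/
def hn (φ : G3) : ℤ := q3 φ 0 0 1 2 - q3 φ 1 1 1 2 - q2 φ 0 1 2 * q2 φ 1 0 1 -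
  q2 φ 0 0 1 * q2 φ 1 1 2

theorem hA_mul (φ ψ : G3) : hA (φ * ψ) = hA φ + hA ψ := q2_mul φ ψ 0 1 2

theorem hP_mul (φ ψ : G3) : hP (φ * ψ) = hP φ + hP ψ := by
  simp only [hP, q2_mul]
  ring

theorem hR_mul (φ ψ : G3) : hR (φ * ψ) = hR φ + hR ψ := by
  simp only [hR, q2_mul]
  ring

theorem hm_mul (φ ψ : G3) : hm (φ * ψ) = hm φ + hm ψ + hA φ * hP ψ := by
  simp only [hm, hA, hP, q2_mul, q3_mul]
  linear_combination (- q2 φ 0 1 2) * q2_anti ψ 0 1 0 (by decide) -
    q2 φ 1 1 2 * q2_diag ψ 0 1 - q2 ψ 0 1 2 * q2_anti φ 2 1 2 (by decide) -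
    q2 ψ 0 0 2 * q2_diag φ 0 1 - q2 ψ 0 1 2 * q2_diag φ 1 1 - q2 ψ 0 2 2 * q2_diag φ 2 1

theorem hn_mul (φ ψ : G3) : hn (φ * ψ) = hn φ + hn ψ + hP φ * hR ψ := by
  simp only [hn, hP, hR, q2_mul, q3_mul]
  linear_combination q2 φ 0 1 2 * q2_diag ψ 0 0 + q2 φ 2 0 1 * q2_diag ψ 0 2 +
    q2 ψ 0 0 2 * q2_anti φ 2 1 2 (by decide) - q2 φ 0 1 2 * q2_anti ψ 1 1 0 (by decide) -
    q2 φ 1 1 2 * q2_diag ψ 1 1 - q2 ψ 1 1 2 * q2_anti φ 2 1 2 (by decide) -
    q2 ψ 1 0 2 * q2_diag φ 0 1 - q2 ψ 1 1 2 * q2_diag φ 1 1 - q2 ψ 1 2 2 * q2_diag φ 2 1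

/-! ### The automorphisms -/

/-- the generators -/
abbrev x (i : Fin 3) : FreeGroup (Fin 3) := FreeGroup.of i

/-- the commutator `[x₁⁻¹, x₂⁻¹]` -/
def z : FreeGroup (Fin 3) := (x 1)⁻¹ * (x 2)⁻¹ * x 1 * x 2

/-- the endomorphism which sends `x₀` to `w` and fixes `x₁`, `x₂` -/
def endo (w : FreeGroup (Fin 3)) : FreeGroup (Fin 3) →* FreeGroup (Fin 3) :=
  FreeGroup.lift ![w, x 1, x 2]

theorem endo_0 (w : FreeGroup (Fin 3)) : endo w (FreeGroup.of 0) = w := FreeGroup.lift_apply_of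
theorem endo_1 (w : FreeGroup (Fin 3)) : endo w (FreeGroup.of 1) = x 1 := FreeGroup.lift_apply_of
theorem endo_2 (w : FreeGroup (Fin 3)) : endo w (FreeGroup.of 2) = x 2 := FreeGroup.lift_apply_of

theorem endo_comp (w w' : FreeGroup (Fin 3)) (h : endo w w' = x 0) :
    (endo w).comp (endo w') = MonoidHom.id _ := by
  refine FreeGroup.ext_hom _ _ fun i => ?_
  fin_cases i
  · change endo w (endo w' (FreeGroup.of 0)) = _
    rw [endo_0, h]
    rfl
  · change endo w (endo w' (FreeGroup.of 1)) = _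
    rw [endo_1, endo_1]
    rfl
  · change endo w (endo w' (FreeGroup.of 2)) = _
    rw [endo_2, endo_2]
    rfl

/-- the automorphism which sends `x₀` to `w` and fixes `x₁`, `x₂` -/
def auto (w w' : FreeGroup (Fin 3)) (h : endo w w' = x 0) (h' : endo w' w = x 0)
    (hw : Abelianization.of w = Abelianization.of (x 0)) : G3 :=
  ⟨MonoidHom.toMulEquiv (endo w) (endo w') (endo_comp w' w h') (endo_comp w w' h), by
    intro u
    have key : Abelianization.of.comp (endo w) = Abelianization.of := by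
      refine FreeGroup.ext_hom _ _ fun i => ?_
      fin_cases i
      · change Abelianization.of (endo w (FreeGroup.of 0)) = _
        rw [endo_0, hw]
        rfl
      · change Abelianization.of (endo w (FreeGroup.of 1)) = _
        rw [endo_1]
        rfl
      · change Abelianization.of (endo w (FreeGroup.of 2)) = _
        rw [endo_2]
        rfl
    exact DFunLike.congr_fun key u⟩

theorem auto_apply (w w' : FreeGroup (Fin 3)) (h : endo w w' = x 0) (h' : endo w' w = x 0)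
    (hw : Abelianization.of w = Abelianization.of (x 0)) (u : FreeGroup (Fin 3)) :
    ((auto w w' h h' hw : G3) : MulAut (FreeGroup (Fin 3))) u = endo w u := rfl

theorem endo_z (w : FreeGroup (Fin 3)) : endo w z = z := by
  simp only [z, x, map_mul, map_inv, endo_1, endo_2]

theorem ab_z : Abelianization.of z = 1 := by
  simp only [z, map_mul, map_inv]
  generalize Abelianization.of (x 1) = a
  generalize Abelianization.of (x 2) = b
  rw [mul_right_comm a⁻¹ b⁻¹ a]
  simp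

/-- `x₀ ↦ x₀ [x₁⁻¹, x₂⁻¹]` -/
def ea : G3 := auto (x 0 * z) (x 0 * z⁻¹)
  (by rw [map_mul, map_inv, endo_0, endo_z]; group)
  (by rw [map_mul, endo_0, endo_z]; group)
  (by rw [map_mul, ab_z, mul_one])

/-- `x₀ ↦ x₁ x₀ x₁⁻¹` -/
def ep : G3 := auto (x 1 * x 0 * (x 1)⁻¹) ((x 1)⁻¹ * x 0 * x 1)
  (by simp only [map_mul, map_inv, endo_0, endo_1]; group)
  (by simp only [map_mul, map_inv, endo_0, endo_1]; group)
  (by simp only [map_mul, map_inv]; rw [mul_comm, inv_mul_cancel_left])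

/-- `x₀ ↦ x₂ x₀ x₂⁻¹` -/
def er : G3 := auto (x 2 * x 0 * (x 2)⁻¹) ((x 2)⁻¹ * x 0 * x 2)
  (by simp only [map_mul, map_inv, endo_0, endo_2]; group)
  (by simp only [map_mul, map_inv, endo_0, endo_2]; group)
  (by simp only [map_mul, map_inv]; rw [mul_comm, inv_mul_cancel_left])

/-- `x₀ ↦ z⁻¹ x₀ z` -/
def eq' : G3 := auto (z⁻¹ * x 0 * z) (z * x 0 * z⁻¹)
  (by simp only [map_mul, map_inv, endo_0, endo_z]; group)
  (by simp only [map_mul, map_inv, endo_0, endo_z]; group)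
  (by simp only [map_mul, map_inv, ab_z]; simp)

theorem G3_ext {φ ψ : G3} (h : ∀ i, (φ : MulAut (FreeGroup (Fin 3))) (FreeGroup.of i) =
    (ψ : MulAut (FreeGroup (Fin 3))) (FreeGroup.of i)) : φ = ψ := by
  apply Subtype.ext
  apply MulEquiv.toMonoidHom_injective
  exact FreeGroup.ext_hom _ _ h

theorem rel1 : ep * er = eq' * (er * ep) := by
  apply G3_ext
  intro i
  change endo _ (endo _ (FreeGroup.of i)) = endo _ (endo _ (endo _ (FreeGroup.of i)))
  fin_cases i
  · change endo _ (endo _ (FreeGroup.of 0)) = endo _ (endo _ (endo _ (FreeGroup.of 0)))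
    simp only [endo_0, endo_1, endo_2, map_mul, map_inv, x]
    simp only [z, x]
    group
  · change endo _ (endo _ (FreeGroup.of 1)) = endo _ (endo _ (endo _ (FreeGroup.of 1)))
    simp only [endo_1, x]
  · change endo _ (endo _ (FreeGroup.of 2)) = endo _ (endo _ (endo _ (FreeGroup.of 2)))
    simp only [endo_2, x]

theorem rel2 : ea * eq' = eq' * ea := by
  apply G3_ext
  intro i
  change endo _ (endo _ (FreeGroup.of i)) = endo _ (endo _ (FreeGroup.of i))
  fin_cases i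
  · change endo _ (endo _ (FreeGroup.of 0)) = endo _ (endo _ (FreeGroup.of 0))
    simp only [endo_0, endo_z, map_mul, map_inv, x]
    group
  · change endo _ (endo _ (FreeGroup.of 1)) = endo _ (endo _ (FreeGroup.of 1))
    simp only [endo_1, x]
  · change endo _ (endo _ (FreeGroup.of 2)) = endo _ (endo _ (FreeGroup.of 2))
    simp only [endo_2, x]

theorem rel : ⁅ea, ⁅ep, er⁆⁆ = 1 := by
  have h1 : ⁅ep, er⁆ = eq' := by
    rw [commutatorElement_def, rel1]
    group
  rw [h1, commutatorElement_eq_one_iff_mul_comm, rel2]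

theorem q2_auto (w w' : FreeGroup (Fin 3)) (h : endo w w' = x 0) (h' : endo w' w = x 0)
    (hw : Abelianization.of w = Abelianization.of (x 0)) (i j k : Fin 3) :
    q2 (auto w w' h h' hw) i j k = (mag (![w, x 1, x 2] i)).c2 j k := by
  unfold q2
  rw [auto_apply]
  congr 2
  exact FreeGroup.lift_apply_of

theorem main : ¬ FreeModQuadratic G3 := by
  refine not_freeModQuadratic hA hP hR hm hn hA_mul hP_mul hR_mul hm_mul hn_mul ea ep er ?_ ?_ ?_
    rel
  · simp [hA, hP, hR, ea, q2_auto, z, mag_of]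
  · simp [hA, hP, hR, ep, q2_auto, mag_of]
  · simp [hA, hP, hR, er, q2_auto, mag_of]

end Pool.Agent.TH46.IA
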